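import Pool.Agent.P.MP_382f0d_gt.Final

namespace Pool.Agent.P.MP_382f0d_gt.Old.NotFG

open Pool.Agent.P.MP_382f0d_gt

/-- There is a nonempty link whose complement has a Kauffman bracket skein module over `ℚ(A)`
that is not finitely generated over the algebra generated by the meridians. -/
theorem result : ∃ L : PLink, (∃ v, L.next v ≠ v) ∧ ¬ FGOverMeridians L :=
  ⟨chain, ⟨_, rot_ne.2 ⟨0, by simp, 0, rfl⟩⟩, not_fg⟩

end Pool.Agent.P.MP_382f0d_gt.Old.NotFG
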